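import Pool.Agent.W251.EX.Defs4

/-!
EV-TT: from mean values to exceptional scales
-/

set_option autoImplicit false

namespace Pool.Agent.W778.EX

open Finset Filter

theorem tt : Pool.Agent.W251.EX.S_TT := by
  intro A h ε hε
  rw [Metric.tendsto_atTop]
  intro δ hδ
  obtain ⟨N₀, hN₀⟩ := h (ε * δ / 2) (by positivity)
  refine ⟨max N₀ 3, fun N hN => ?_⟩
  have hN3 : 3 ≤ N := (le_max_right _ _).trans hN
  have hlog : 0 < Real.log N := Real.log_pos (by
    have : (3 : ℝ) ≤ N := by exact_mod_cast hN3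
    linarith)
  have hS0 : 0 ≤ ∑ X ∈ (Icc 1 N).filter (fun X : ℕ => ε * X < ‖A X‖), 1 / (X : ℝ) :=
    Finset.sum_nonneg fun X _ => by positivity
  rw [Real.dist_eq, sub_zero, abs_of_nonneg (div_nonneg hS0 hlog.le), div_lt_iff₀ hlog]
  have h1 : ∑ X ∈ (Icc 1 N).filter (fun X : ℕ => ε * X < ‖A X‖), 1 / (X : ℝ) ≤
      ∑ X ∈ Icc 1 N, 1 / ε * (1 / (X : ℝ) ^ 2 * ‖A X‖) := by
    calc ∑ X ∈ (Icc 1 N).filter (fun X : ℕ => ε * X < ‖A X‖), 1 / (X : ℝ)
        ≤ ∑ X ∈ (Icc 1 N).filter (fun X : ℕ => ε * X < ‖A X‖),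
          1 / ε * (1 / (X : ℝ) ^ 2 * ‖A X‖) := by
          refine Finset.sum_le_sum fun X hX => ?_
          obtain ⟨hX1, hX2⟩ := Finset.mem_filter.1 hX
          have hX0 : (0 : ℝ) < X := by
            have := (Finset.mem_Icc.1 hX1).1
            exact_mod_cast this
          have e1 : 1 / (X : ℝ) = 1 / ε * (1 / (X : ℝ) ^ 2 * (ε * X)) := by
            field_simp
          rw [e1]
          refine mul_le_mul_of_nonneg_left ?_ (by positivity)
          exact mul_le_mul_of_nonneg_left hX2.le (by positivity)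
      _ ≤ ∑ X ∈ Icc 1 N, 1 / ε * (1 / (X : ℝ) ^ 2 * ‖A X‖) := by
          refine Finset.sum_le_sum_of_subset_of_nonneg (Finset.filter_subset _ _) fun X _ _ => ?_
          positivity
  have h2 := hN₀ N ((le_max_left _ _).trans hN)
  have h3 : 1 / ε * (ε * δ / 2 * Real.log N) < δ * Real.log N := by
    have e1 : 1 / ε * (ε * δ / 2 * Real.log N) = δ * Real.log N / 2 := by
      field_simp
    rw [e1]
    have h5 : 0 < δ * Real.log N := mul_pos hδ hlog
    linarith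
  calc ∑ X ∈ (Icc 1 N).filter (fun X : ℕ => ε * X < ‖A X‖), 1 / (X : ℝ)
      ≤ ∑ X ∈ Icc 1 N, 1 / ε * (1 / (X : ℝ) ^ 2 * ‖A X‖) := h1
    _ = 1 / ε * ∑ X ∈ Icc 1 N, 1 / (X : ℝ) ^ 2 * ‖A X‖ := by rw [Finset.mul_sum]
    _ ≤ 1 / ε * (ε * δ / 2 * Real.log N) :=
        mul_le_mul_of_nonneg_left h2 (by positivity)
    _ < δ * Real.log N := h3

end Pool.Agent.W778.EX
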